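import Pool.Agent.Lib.MP_ded707_al.Main

set_option autoImplicit false

open Pool.Agent.Lib.MP_ded707_al

namespace Pool.Agent.Results.MP_ded707_al.Counterexample

theorem result : ∃ 𝒯 : TTCat, 𝒯.Compatible ∧ 𝒯.IsRCG ∧ (∀ P : 𝒯.Spc, TTCat.WeaklyVisible P) ∧
    (∀ P : 𝒯.Spc, ∃ g, TTCat.IsG P g) ∧ Nonempty 𝒯.Spc ∧
    ∀ S : Set 𝒯.Spc, S.Subsingleton →
      ∃ t : 𝒯.T, TTCat.Supp t = S ∧ TopologicalSpace.NoetherianSpace (TTCat.Supp t) ∧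
        ¬ TTCat.LTG t :=
  let ⟨𝒯, h, h'⟩ := main
  ⟨𝒯, h.compatible, h'⟩

end Pool.Agent.Results.MP_ded707_al.Counterexample
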